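import Pool.Agent.W564.SC.Defs3

/-!
# Project SC, part IND: linear algebra
-/

set_option autoImplicit false

namespace Pool.Agent.W19.SC

open Pool.Agent.W564.SC Pool.Agent.H718R2.G

theorem ind : S_IND := by
  intro D Λ τ x B hD hΛ hτ hx hB hup hlow
  have hΛ0 : 0 < Λ := by linarith
  have hΛ1 : 1 ≤ Λ := by linarith
  -- the linear relation
  have hdep : ¬ LinearIndependent ℝ x := by
    intro h
    have h1 := h.fintype_card_le_finrank
    rw [Fintype.card_fin, finrank_euclideanSpace_fin] at h1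
    omega
  obtain ⟨a, hsum, i1, hi1⟩ := Fintype.not_linearIndependent_iff.1 hdep
  obtain ⟨i0, hi0⟩ := Finite.exists_max (fun i => |a i|)
  obtain ⟨A, hA⟩ : ∃ A : ℝ, A = |a i0| := ⟨_, rfl⟩
  have hApos : 0 < A := by
    rw [hA]
    exact lt_of_lt_of_le (abs_pos.2 hi1) (hi0 i1)
  have hAle : ∀ i, |a i| ≤ A := fun i => by
    rw [hA]
    exact hi0 i
  have key : ∀ n : ℕ, ∀ i : Fin (D + 1), i.val < n → |a i| ≤ Λ ^ (35 * n) * (A * τ) := by
    intro n
    induction n with
    | zero =>
      intro i hi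
      exact absurd hi (Nat.not_lt_zero _)
    | succ n ih =>
      intro i hi
      have hAτ : 0 ≤ A * τ := by positivity
      rcases Nat.lt_succ_iff_lt_or_eq.1 hi with h | h
      · refine (ih i h).trans (mul_le_mul_of_nonneg_right ?_ hAτ)
        exact pow_le_pow_right₀ hΛ1 (by omega)
      · obtain ⟨c, hc⟩ : ∃ c : ℝ, c = Λ ^ (35 * n) := ⟨_, rfl⟩
        have hc1 : 1 ≤ c := by
          rw [hc]
          exact one_le_pow₀ hΛ1
        rw [← hc] at ih
        have e1 : a i • B i (x i) = -∑ j ∈ Finset.univ.erase i, a j • B i (x j) := by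
          have h2 : B i (∑ j, a j • x j) = 0 := by rw [hsum, map_zero]
          rw [map_sum] at h2
          simp only [map_smul] at h2
          rw [← Finset.add_sum_erase _ _ (Finset.mem_univ i)] at h2
          exact eq_neg_of_add_eq_zero_left h2
        have h3 : ∀ j ∈ Finset.univ.erase i, ‖a j • B i (x j)‖ ≤ A * τ * (1 + Λ ^ 2 * c) := by
          intro j hj
          have hji : j ≠ i := Finset.ne_of_mem_erase hj
          rw [norm_smul, Real.norm_eq_abs]
          rcases lt_or_gt_of_ne hji with h4 | h4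
          · have h5 : |a j| ≤ c * (A * τ) := ih j (by
              rw [← h]
              exact h4)
            have h6 : ‖B i (x j)‖ ≤ Λ ^ 2 := by
              have h7 := (B i).le_opNorm (x j)
              rw [hx, mul_one] at h7
              exact h7.trans (hB i)
            calc |a j| * ‖B i (x j)‖ ≤ c * (A * τ) * Λ ^ 2 :=
                  mul_le_mul h5 h6 (norm_nonneg _) (by positivity)
              _ ≤ A * τ * (1 + Λ ^ 2 * c) := by nlinarith
          · have h5 := hup i j h4
            calc |a j| * ‖B i (x j)‖ ≤ A * τ :=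
                  mul_le_mul (hAle j) h5 (norm_nonneg _) hApos.le
              _ = A * τ * 1 := (mul_one _).symm
              _ ≤ A * τ * (1 + Λ ^ 2 * c) :=
                  mul_le_mul_of_nonneg_left (by
                    have : 0 ≤ Λ ^ 2 * c := by positivity
                    linarith) hAτ
        have h8 : |a i| * ‖B i (x i)‖ ≤ (D + 1) * (A * τ * (1 + Λ ^ 2 * c)) := by
          calc |a i| * ‖B i (x i)‖ = ‖a i • B i (x i)‖ := by rw [norm_smul, Real.norm_eq_abs]
            _ = ‖∑ j ∈ Finset.univ.erase i, a j • B i (x j)‖ := by rw [e1, norm_neg]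
            _ ≤ ∑ j ∈ Finset.univ.erase i, ‖a j • B i (x j)‖ := norm_sum_le _ _
            _ ≤ ∑ _j ∈ Finset.univ.erase i, A * τ * (1 + Λ ^ 2 * c) := Finset.sum_le_sum h3
            _ = D * (A * τ * (1 + Λ ^ 2 * c)) := by
                rw [Finset.sum_const, Finset.card_erase_of_mem (Finset.mem_univ _),
                  Finset.card_univ, Fintype.card_fin, nsmul_eq_mul, Nat.add_sub_cancel]
            _ ≤ (D + 1) * (A * τ * (1 + Λ ^ 2 * c)) := by
                have : 0 ≤ A * τ * (1 + Λ ^ 2 * c) := by positivity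
                nlinarith
        have h9 : |a i| * Λ⁻¹ ^ 31 ≤ Λ / 2 * (A * τ * (1 + Λ ^ 2 * c)) := by
          calc |a i| * Λ⁻¹ ^ 31 ≤ |a i| * ‖B i (x i)‖ :=
                mul_le_mul_of_nonneg_left (hlow i) (abs_nonneg _)
            _ ≤ (D + 1) * (A * τ * (1 + Λ ^ 2 * c)) := h8
            _ ≤ Λ / 2 * (A * τ * (1 + Λ ^ 2 * c)) :=
                mul_le_mul_of_nonneg_right (by linarith) (by positivity)
        have h10 : 1 + Λ ^ 2 * c ≤ 2 * (Λ ^ 2 * c) := by
          have : 1 ≤ Λ ^ 2 * c := by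
            have h11 : 1 ≤ Λ ^ 2 := one_le_pow₀ hΛ1
            nlinarith
          linarith
        have h12 : |a i| * Λ⁻¹ ^ 31 ≤ Λ ^ 3 * c * (A * τ) := by
          calc |a i| * Λ⁻¹ ^ 31 ≤ Λ / 2 * (A * τ * (1 + Λ ^ 2 * c)) := h9
            _ ≤ Λ / 2 * (A * τ * (2 * (Λ ^ 2 * c))) :=
                mul_le_mul_of_nonneg_left (mul_le_mul_of_nonneg_left h10 hAτ) (by positivity)
            _ = Λ ^ 3 * c * (A * τ) := by ring
        have h13 : |a i| = |a i| * Λ⁻¹ ^ 31 * Λ ^ 31 := by
          rw [mul_assoc, ← mul_pow, inv_mul_cancel₀ hΛ0.ne', one_pow, mul_one]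
        have h14 : Λ ^ (35 * (n + 1)) = Λ ^ 35 * c := by
          rw [hc, ← pow_add]
          congr 1
          ring
        rw [h13, h14]
        calc |a i| * Λ⁻¹ ^ 31 * Λ ^ 31 ≤ Λ ^ 3 * c * (A * τ) * Λ ^ 31 :=
              mul_le_mul_of_nonneg_right h12 (by positivity)
          _ = Λ ^ 34 * c * (A * τ) := by ring
          _ ≤ Λ ^ 35 * c * (A * τ) := by
              refine mul_le_mul_of_nonneg_right (mul_le_mul_of_nonneg_right ?_ (by linarith)) hAτ
              exact pow_le_pow_right₀ hΛ1 (by norm_num)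
  have h1 := key (D + 1) i0 i0.isLt
  rw [← hA] at h1
  have h2 : 1 ≤ Λ ^ (35 * (D + 1)) * τ := by
    have h3 : A * 1 ≤ A * (Λ ^ (35 * (D + 1)) * τ) := by
      rw [mul_one]
      calc A ≤ Λ ^ (35 * (D + 1)) * (A * τ) := h1
        _ = A * (Λ ^ (35 * (D + 1)) * τ) := by ring
    exact le_of_mul_le_mul_left h3 hApos
  have h4 : Λ ^ (35 * (D + 1)) ≤ Λ ^ (40 * (D + 1)) := pow_le_pow_right₀ hΛ1 (by omega)
  have h5 : 1 ≤ Λ ^ (40 * (D + 1)) * τ := h2.trans (mul_le_mul_of_nonneg_right h4 hτ)
  rw [inv_pow, inv_le_iff_one_le_mul₀ (by positivity)]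
  linarith

end Pool.Agent.W19.SC
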